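import Pool.Agent.Helper79.GL4.GoalsA

set_option autoImplicit false

namespace GL4.SLGProof

open Module Matrix

variable {F : Type} [Field F] {V : Type} [AddCommGroup V] [Module F V] {n : ℕ}

/-- matrices of elements of `K` -/
def Q (b : Basis (Fin n) F V) (K : Subgroup (V ≃ₗ[F] V)) (M : Matrix (Fin n) (Fin n) F) : Prop :=
  ∃ k ∈ K, LinearMap.toMatrix b b (k : V →ₗ[F] V) = M

theorem Q_one (b : Basis (Fin n) F V) (K : Subgroup (V ≃ₗ[F] V)) : Q b K 1 :=
  ⟨1, K.one_mem, by
    have : ((1 : V ≃ₗ[F] V) : V →ₗ[F] V) = LinearMap.id := rfl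
    rw [this, LinearMap.toMatrix_id]⟩

theorem Q_mul {b : Basis (Fin n) F V} {K : Subgroup (V ≃ₗ[F] V)} {M N : Matrix (Fin n) (Fin n) F}
    (hM : Q b K M) (hN : Q b K N) : Q b K (M * N) := by
  obtain ⟨k, hk, rfl⟩ := hM
  obtain ⟨l, hl, rfl⟩ := hN
  refine ⟨k * l, K.mul_mem hk hl, ?_⟩
  have : ((k * l : V ≃ₗ[F] V) : V →ₗ[F] V) = (k : V →ₗ[F] V).comp (l : V →ₗ[F] V) := rfl
  rw [this, LinearMap.toMatrix_comp b b b]

theorem Q_transv {b : Basis (Fin n) F V} {K : Subgroup (V ≃ₗ[F] V)}
    (hK : ∀ g : V ≃ₗ[F] V, IsTransv g → g ∈ K) {i j : Fin n} (hij : i ≠ j) (c : F) :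
    Q b K (1 + Matrix.single i j c) := by
  by_cases hc : c = 0
  · subst hc
    simpa using Q_one b K
  have hf : (c • b.coord j) (b i) = 0 := by
    simp [hij]
  let e : V ≃ₗ[F] V := LinearEquiv.transvection hf
  have he : ∀ v, e v = v + (c • b.coord j) v • b i := fun v => by
    simp [e, LinearMap.transvection.apply]
  refine ⟨e, hK e ⟨?_, c • b.coord j, b i, hf, he⟩, ?_⟩
  · intro h1
    have h2 := he (b j)
    rw [h1] at h2
    have h3 : (c • b.coord j) (b j) • b i = 0 := by
      have : (1 : V ≃ₗ[F] V) (b j) = b j := rfl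
      rw [this] at h2
      exact (add_eq_left.mp h2.symm)
    have h4 : (c • b.coord j) (b j) = c := by simp
    rw [h4] at h3
    exact hc ((smul_eq_zero.mp h3).resolve_right (b.ne_zero i))
  · ext p q
    rw [LinearMap.toMatrix_apply]
    have : (e : V →ₗ[F] V) (b q) = b q + (c • b.coord j) (b q) • b i := he (b q)
    rw [this]
    simp only [map_add, map_smul, Basis.repr_self, Finsupp.add_apply, Finsupp.smul_apply,
      Matrix.add_apply, Matrix.one_apply, Matrix.single_apply, Finsupp.single_apply,
      LinearMap.smul_apply, Basis.coord_apply, smul_eq_mul]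
    by_cases h1 : i = p <;> by_cases h2 : j = q <;> by_cases h3 : p = q <;>
      simp_all [eq_comm]

theorem D_eq {i j : Fin n} (hij : i ≠ j) {a : F} (ha : a ≠ 0) :
    ((1 + Matrix.single i j a) * (1 + Matrix.single j i (-a⁻¹)) * (1 + Matrix.single i j a)) *
    ((1 + Matrix.single i j (-1)) * (1 + Matrix.single j i 1) * (1 + Matrix.single i j (-1))) =
    Matrix.diagonal (Function.update (Function.update (1 : Fin n → F) i a) j a⁻¹) := by
  have h1 : ∀ x : F, x ≠ 0 →
      (1 + Matrix.single i j x) * (1 + Matrix.single j i (-x⁻¹)) * (1 + Matrix.single i j x)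
      = (1 - Matrix.single i i 1 - Matrix.single j j 1 + Matrix.single i j x -
        Matrix.single j i x⁻¹ : Matrix (Fin n) (Fin n) F) := by
    intro x hx
    have e1 : Matrix.single i j x * Matrix.single j i (-x⁻¹) = - Matrix.single i i (1 : F) := by
      rw [Matrix.single_mul_single_same, mul_neg, mul_inv_cancel₀ hx]
      ext p q; simp [Matrix.single_apply]; split_ifs <;> simp
    have e2 : Matrix.single j i (-x⁻¹) * Matrix.single i j x = - Matrix.single j j (1 : F) := by
      rw [Matrix.single_mul_single_same, neg_mul, inv_mul_cancel₀ hx]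
      ext p q; simp [Matrix.single_apply]; split_ifs <;> simp
    have e3 : Matrix.single i j x * Matrix.single i j x = (0 : Matrix (Fin n) (Fin n) F) :=
      Matrix.single_mul_single_of_ne _ _ _ _ (Ne.symm hij) _
    have e4 : Matrix.single i i (1 : F) * Matrix.single i j x = Matrix.single i j x := by
      rw [Matrix.single_mul_single_same, one_mul]
    have e5 : Matrix.single j i (-x⁻¹) = -(Matrix.single j i x⁻¹ : Matrix (Fin n) (Fin n) F) := by
      ext p q; simp [Matrix.single_apply]; split_ifs <;> simp
    calc (1 + Matrix.single i j x) * (1 + Matrix.single j i (-x⁻¹)) * (1 + Matrix.single i j x)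
        = 1 + Matrix.single j i (-x⁻¹) + Matrix.single i j x +
          Matrix.single i j x * Matrix.single j i (-x⁻¹) + Matrix.single i j x
          + Matrix.single j i (-x⁻¹) * Matrix.single i j x
          + Matrix.single i j x * Matrix.single i j x
          + (Matrix.single i j x * Matrix.single j i (-x⁻¹)) * Matrix.single i j x := by
          noncomm_ring
      _ = _ := by
          rw [e1, e2, e3, neg_mul, e4, e5]
          abel
  have h2 := h1 a ha
  have h3 := h1 (-1) (by simp)
  have h4 : (-(-1 : F)⁻¹) = 1 := by norm_num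
  rw [h4] at h3
  rw [h2, h3]
  have hji : j ≠ i := Ne.symm hij
  have m : ∀ (p q r s : Fin n) (x y : F), (Matrix.single p q x * Matrix.single r s y :
      Matrix (Fin n) (Fin n) F) = if q = r then Matrix.single p s (x * y) else 0 := by
    intro p q r s x y
    split_ifs with h
    · subst h; rw [Matrix.single_mul_single_same]
    · exact Matrix.single_mul_single_of_ne _ _ _ _ h _
  simp only [mul_add, mul_sub, add_mul, sub_mul, one_mul, mul_one, m, hij, hji, if_true, if_false]
  ext p q
  simp only [Matrix.diagonal_apply, Matrix.add_apply, Matrix.sub_apply, Matrix.one_apply,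
    Matrix.single_apply, Matrix.zero_apply, Function.update_apply, Pi.one_apply]
  by_cases h1 : p = q
  · subst h1
    by_cases h2 : p = i
    · subst h2
      simp [hij, hji]
    · by_cases h3 : p = j
      · subst h3
        simp [hij]
      · simp [Ne.symm h2, Ne.symm h3, h2, h3]
  · by_cases h2 : i = p <;> by_cases h3 : j = p <;> by_cases h4 : i = q <;> by_cases h5 : j = q <;>
      simp_all


theorem Q_D {b : Basis (Fin n) F V} {K : Subgroup (V ≃ₗ[F] V)}
    (hK : ∀ g : V ≃ₗ[F] V, IsTransv g → g ∈ K) {i j : Fin n} (hij : i ≠ j) {a : F} (ha : a ≠ 0) :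
    Q b K (Matrix.diagonal (Function.update (Function.update (1 : Fin n → F) i a) j a⁻¹)) := by
  rw [← D_eq hij ha]
  have h1 : ∀ c, Q b K (1 + Matrix.single i j c) := fun c => Q_transv hK hij c
  have h2 : ∀ c, Q b K (1 + Matrix.single j i c) := fun c => Q_transv hK hij.symm c
  exact Q_mul (Q_mul (Q_mul (h1 _) (h2 _)) (h1 _)) (Q_mul (Q_mul (h1 _) (h2 _)) (h1 _))

theorem Q_diag {b : Basis (Fin n) F V} {K : Subgroup (V ≃ₗ[F] V)}
    (hK : ∀ g : V ≃ₗ[F] V, IsTransv g → g ∈ K) (d : Fin n → F) (hd : ∏ i, d i = 1) :
    Q b K (Matrix.diagonal d) := by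
  classical
  have hne : ∀ i, d i ≠ 0 := by
    intro i h
    rw [Finset.prod_eq_zero (Finset.mem_univ i) h] at hd
    exact zero_ne_one hd
  rcases Nat.eq_zero_or_pos n with rfl | hn
  · have : Matrix.diagonal d = 1 := by
      ext i; exact i.elim0
    rw [this]; exact Q_one b K
  let z : Fin n := ⟨0, hn⟩
  have key : ∀ s : Finset (Fin n), z ∉ s → Q b K (Matrix.diagonal
      (fun i => if i = z then ∏ k ∈ s, (d k)⁻¹ else if i ∈ s then d i else 1)) := by
    intro s
    induction s using Finset.induction_on with
    | empty =>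
      intro _
      have : Matrix.diagonal (fun i : Fin n => if i = z then ∏ k ∈ (∅ : Finset (Fin n)), (d k)⁻¹
          else if i ∈ (∅ : Finset (Fin n)) then d i else 1) = 1 := by
        rw [← Matrix.diagonal_one]
        congr 1
        funext i
        simp
      rw [this]; exact Q_one b K
    | insert a s ha ih =>
      intro hz
      have hza : z ≠ a := fun h => hz (by rw [h]; exact Finset.mem_insert_self _ _)
      have hzs : z ∉ s := fun h => hz (Finset.mem_insert_of_mem h)
      have h1 := Q_mul (ih hzs) (Q_D hK (Ne.symm hza) (hne a))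
      rw [Matrix.diagonal_mul_diagonal] at h1
      convert h1 using 2
      funext i
      simp only [Function.update_apply, Pi.one_apply, Finset.mem_insert]
      by_cases h2 : i = z
      · subst h2
        simp only [if_true]
        rw [Finset.prod_insert ha, mul_comm]
      · by_cases h3 : i = a
        · subst h3
          simp [h2, ha]
        · simp [h2, h3]
  have h := key (Finset.univ.erase z) (Finset.notMem_erase _ _)
  convert h using 2
  funext i
  by_cases h2 : i = z
  · subst h2
    simp only [if_true]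
    have h3 : d z * ∏ k ∈ Finset.univ.erase z, d k = 1 := by
      rw [Finset.mul_prod_erase _ _ (Finset.mem_univ z), hd]
    rw [Finset.prod_inv_distrib]
    exact eq_inv_of_mul_eq_one_left h3
  · simp [h2]

theorem slg : GL4.SLG := by
  intro F _ V _ _ _ K hK g hg
  classical
  let b : Basis (Fin (finrank F V)) F V := Module.finBasis F V
  obtain ⟨L, L', D, hM⟩ := Matrix.Pivot.exists_list_transvec_mul_diagonal_mul_list_transvec
    (LinearMap.toMatrix b b (g : V →ₗ[F] V))
  have hQL : ∀ L : List (TransvectionStruct (Fin (finrank F V)) F),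
      Q b K (L.map TransvectionStruct.toMatrix).prod := by
    intro L
    induction L with
    | nil => simpa using Q_one b K
    | cons t L ih =>
      rw [List.map_cons, List.prod_cons]
      refine Q_mul ?_ ih
      exact Q_transv hK t.hij t.c
  have hdet : ∏ i, D i = 1 := by
    have h1 : (LinearMap.toMatrix b b (g : V →ₗ[F] V)).det = 1 := by
      rw [LinearMap.det_toMatrix]; exact hg
    rw [hM, Matrix.det_mul, Matrix.det_mul, TransvectionStruct.det_toMatrix_prod,
      TransvectionStruct.det_toMatrix_prod, Matrix.det_diagonal, one_mul, mul_one] at h1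
    exact h1
  have h := Q_mul (Q_mul (hQL L) (Q_diag hK D hdet)) (hQL L')
  rw [← hM] at h
  obtain ⟨k, hk, hkg⟩ := h
  have h2 : (k : V →ₗ[F] V) = (g : V →ₗ[F] V) := (LinearMap.toMatrix b b).injective hkg
  have h3 : k = g := LinearEquiv.toLinearMap_injective h2
  rw [← h3]; exact hk

end GL4.SLGProof

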