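import Pool.Agent.Helper79.GL4.GoalsB

set_option autoImplicit false

namespace GL4.SPEC2Proof

open Real Finset

/-- the normalised values -/
noncomputable def ph (h : ℝ) (j : ℕ) : ℝ := sin ((2 * j + 1) * h) / sin h

theorem ph_zero {h : ℝ} (hs : sin h ≠ 0) : ph h 0 = 1 := by
  simp [ph, hs]

theorem ph_one {h : ℝ} (hs : sin h ≠ 0) : ph h 1 = 1 + 2 * cos (2 * h) := by
  unfold ph
  rw [div_eq_iff hs]
  have h1 := sin_add (2 * h) h
  have h2 := sin_sub (2 * h) h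
  have e1 : 2 * h + h = (2 * ((1 : ℕ) : ℝ) + 1) * h := by push_cast; ring
  have e2 : 2 * h - h = h := by ring
  rw [e1] at h1
  rw [e2] at h2
  rw [h1]
  linear_combination -h2

theorem ph_step (h : ℝ) (j : ℕ) : ph h (j + 2) = 2 * cos (2 * h) * ph h (j + 1) - ph h j := by
  unfold ph
  have h1 := sin_add ((2 * ((j + 1 : ℕ) : ℝ) + 1) * h) (2 * h)
  have h2 := sin_sub ((2 * ((j + 1 : ℕ) : ℝ) + 1) * h) (2 * h)
  have e1 : (2 * ((j + 1 : ℕ) : ℝ) + 1) * h + 2 * h = (2 * ((j + 2 : ℕ) : ℝ) + 1) * h := by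
    push_cast; ring
  have e2 : (2 * ((j + 1 : ℕ) : ℝ) + 1) * h - 2 * h = (2 * (j : ℝ) + 1) * h := by
    push_cast; ring
  rw [e1] at h1
  rw [e2] at h2
  rw [h1, h2]
  ring

theorem ff_eq {q h : ℝ} (hs : sin h ≠ 0) (j : ℕ) :
    ff q (q + 2 * q * cos (2 * h)) j = q ^ j * ph h j ∧
    ff q (q + 2 * q * cos (2 * h)) (j + 1) = q ^ (j + 1) * ph h (j + 1) := by
  induction j with
  | zero =>
    refine ⟨by simp [ff, ph_zero hs], ?_⟩
    rw [zero_add, ph_one hs]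
    simp only [ff]
    ring
  | succ j ih =>
    refine ⟨ih.2, ?_⟩
    rw [show j + 1 + 1 = j + 2 from rfl, ph_step]
    simp only [ff]
    rw [ih.1, ih.2]
    ring

theorem sum_sq (h : ℝ) (n : ℕ) :
    2 * sin (2 * h) * ∑ j ∈ range n, sin ((2 * j + 1) * h) ^ 2 =
      n * sin (2 * h) - sin (2 * n * (2 * h)) / 2 := by
  induction n with
  | zero => simp
  | succ n ih =>
    rw [sum_range_succ, mul_add, ih]
    have h1 : sin ((2 * (n : ℝ) + 1) * h) ^ 2 = (1 - cos ((2 * n + 1) * (2 * h))) / 2 := by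
      have := cos_two_mul ((2 * (n : ℝ) + 1) * h)
      have h2 := sin_sq_add_cos_sq ((2 * (n : ℝ) + 1) * h)
      have e : 2 * ((2 * (n : ℝ) + 1) * h) = (2 * n + 1) * (2 * h) := by ring
      rw [e] at this
      linear_combination this / 2 + h2
    rw [h1]
    have h3 := sin_add ((2 * (n : ℝ) + 1) * (2 * h)) (2 * h)
    have h4 := sin_sub ((2 * (n : ℝ) + 1) * (2 * h)) (2 * h)
    have e1 : (2 * (n : ℝ) + 1) * (2 * h) + 2 * h = 2 * ((n + 1 : ℕ) : ℝ) * (2 * h) := by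
      push_cast; ring
    have e2 : (2 * (n : ℝ) + 1) * (2 * h) - 2 * h = 2 * (n : ℝ) * (2 * h) := by
      ring
    rw [e1] at h3
    rw [e2] at h4
    rw [h3, h4]
    push_cast
    ring

theorem sum_ph {q h : ℝ} (hq : q ≠ 0) (hs : sin h ≠ 0) (n : ℕ) :
    (q ^ 2 + 1 - 2 * q * cos (2 * h)) * ∑ j ∈ range (n + 1), (q⁻¹) ^ j * ph h j =
      q ^ 2 + q + (q⁻¹) ^ n * ph h n - q * (q⁻¹) ^ n * ph h (n + 1) := by
  induction n with
  | zero =>
    simp [ph_zero hs, ph_one hs]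
    ring
  | succ n ih =>
    rw [sum_range_succ, mul_add, ih, show n + 1 + 1 = n + 2 from rfl, ph_step]
    have hqi : q * q⁻¹ = 1 := mul_inv_cancel₀ hq
    have e : (q⁻¹) ^ n = q * (q⁻¹) ^ (n + 1) := by
      rw [pow_succ, mul_comm ((q⁻¹) ^ n) q⁻¹, ← mul_assoc, hqi, one_mul]
    rw [e]
    ring

theorem spec2 : GL4.SPEC2 := by
  intro q k hq hk a ha
  have hqr : (2 : ℝ) ≤ q := by exact_mod_cast hq
  have hkr : (2 : ℝ) ≤ k := by exact_mod_cast hk
  have hm : (0 : ℝ) < 2 * k + 1 := by linarith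
  set h : ℝ := π / (2 * k + 1) with hh
  have hpi := Real.pi_pos
  have hmh : (2 * (k : ℝ) + 1) * h = π := by
    rw [hh]; field_simp
  have hpos : 0 < h := by rw [hh]; positivity
  have hlt : 4 * h < π := by nlinarith
  have hs : 0 < sin h := sin_pos_of_pos_of_lt_pi hpos (by linarith)
  have hs2 : 0 < sin (2 * h) := sin_pos_of_pos_of_lt_pi (by linarith) (by linarith)
  have hth : 2 * π / (2 * k + 1) = 2 * h := by rw [hh]; ring
  rw [hth] at ha
  subst ha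
  set C : ℝ := cos (2 * h) with hC
  have hC1 : C < 1 := by
    have h1 := cos_sq_add_sin_sq (2 * h)
    have : C ≤ 1 := cos_le_one _
    rcases this.lt_or_eq with h2 | h2
    · exact h2
    · exfalso
      rw [← hC, h2] at h1
      nlinarith
  have hff := fun j => (ff_eq (q := (q : ℝ)) hs.ne' j).1
  have hphk : ph h k = 0 := by
    unfold ph
    rw [hmh, sin_pi, zero_div]
  have hD : 0 < (q : ℝ) ^ 2 + 1 - 2 * q * C := by nlinarith [sq_nonneg ((q : ℝ) - 1)]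
  have hbr3 : (br q 3 : ℝ) = q ^ 2 + q + 1 := by
    simp [br, Finset.sum_range_succ]; ring
  have hbrD : (br q 3 : ℝ) - (q + 2 * q * C) = (q : ℝ) ^ 2 + 1 - 2 * q * C := by
    rw [hbr3]; ring
  refine ⟨by rw [hff, hphk, mul_zero], ?_, ?_⟩
  · intro he
    rw [← he] at hbrD
    linarith
  intro mu hmu
  rw [hbrD] at hmu
  set D : ℝ := (q : ℝ) ^ 2 + 1 - 2 * q * C with hDdef
  have hq0 : (q : ℝ) ≠ 0 := by linarith
  have hqi : ∀ j : ℕ, ((q : ℝ)⁻¹) ^ j * (q : ℝ) ^ j = 1 := fun j => by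
    rw [← mul_pow, inv_mul_cancel₀ hq0, one_pow]
  have hZ : (∑ j ∈ range k, ((q : ℝ)⁻¹) ^ (2 * j) * (ff q (q + 2 * q * C) j) ^ 2) * (2 * (1 - C)) =
      2 * k + 1 := by
    have h1 : ∀ j ∈ range k, ((q : ℝ)⁻¹) ^ (2 * j) * (ff q (q + 2 * q * C) j) ^ 2 =
        sin ((2 * j + 1) * h) ^ 2 / sin h ^ 2 := by
      intro j _
      rw [hff j]
      have : ((q : ℝ)⁻¹) ^ (2 * j) * (q ^ j * ph h j) ^ 2 =
          (((q : ℝ)⁻¹) ^ j * (q : ℝ) ^ j) ^ 2 * ph h j ^ 2 := by ring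
      rw [this, hqi, one_pow, one_mul, ph, div_pow]
    rw [sum_congr rfl h1, ← sum_div]
    have h2 := sum_sq h k
    have h3 : sin (2 * k * (2 * h)) = - sin (2 * h) := by
      have : 2 * (k : ℝ) * (2 * h) = 2 * π - 2 * h := by linear_combination 2 * hmh
      rw [this, sin_sub, sin_two_pi, cos_two_pi]; ring
    rw [h3] at h2
    have h4 : ∑ j ∈ range k, sin ((2 * (j : ℝ) + 1) * h) ^ 2 = (2 * k + 1) / 4 := by
      have : sin (2 * h) * (2 * ∑ j ∈ range k, sin ((2 * (j : ℝ) + 1) * h) ^ 2) =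
          sin (2 * h) * ((2 * k + 1) / 2) := by linear_combination h2
      have := mul_left_cancel₀ hs2.ne' this
      linarith
    rw [h4]
    have h5 : sin h ^ 2 = (1 - C) / 2 := by
      have h6 := cos_two_mul h
      have h7 := sin_sq_add_cos_sq h
      rw [hC]; linear_combination h7 + h6 / 2
    rw [h5]
    have : (1 - C) ≠ 0 := by linarith
    field_simp
    ring
  obtain ⟨k', rfl⟩ : ∃ k', k = k' + 1 := ⟨k - 1, by omega⟩
  have hT : (∑ j ∈ range (k' + 1), ((q : ℝ)⁻¹) ^ (2 * j) * ff q (q + 2 * q * C) j -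
      ((q : ℝ)⁻¹) ^ (2 * (k' + 1 - 1)) * ff q (q + 2 * q * C) (k' + 1 - 1) / D) * D =
      (q : ℝ) ^ 2 + q := by
    have h1 : ∀ j, ((q : ℝ)⁻¹) ^ (2 * j) * ff q (q + 2 * q * C) j = ((q : ℝ)⁻¹) ^ j * ph h j := by
      intro j
      rw [hff j]
      have : ((q : ℝ)⁻¹) ^ (2 * j) * (q ^ j * ph h j) =
          ((q : ℝ)⁻¹) ^ j * (((q : ℝ)⁻¹) ^ j * (q : ℝ) ^ j) * ph h j := by ring
      rw [this, hqi, mul_one]
    have h2 := sum_ph (h := h) hq0 hs.ne' k'
    rw [sum_congr rfl (fun j _ => h1 j), h1, Nat.add_sub_cancel, sub_mul,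
      div_mul_cancel₀ _ hD.ne', mul_comm (∑ j ∈ range (k' + 1), _) D, hDdef, hC, h2, hphk]
    ring
  have hmain : (2 * ((k' + 1 : ℕ) : ℝ) + 1) * mu * D =
      2 * (1 - C) * (br q (2 * (k' + 1) + 1) : ℝ) * ((q : ℝ) ^ 2 + q) := by
    rw [← hT, ← hZ]
    linear_combination (2 * (1 - C) * D) * hmu
  set B : ℝ := (br q (2 * (k' + 1) + 1) : ℝ) with hB
  have hBpos : 0 < B := by
    rw [hB]
    have : 0 < br q (2 * (k' + 1) + 1) := by
      unfold br
      exact sum_pos (fun i _ => pow_pos (by omega) _) ⟨0, by simp⟩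
    exact_mod_cast this
  have hlin : C * (2 * B * ((q : ℝ) ^ 2 + q) - 2 * q * (2 * ((k' + 1 : ℕ) : ℝ) + 1) * mu) =
      2 * B * ((q : ℝ) ^ 2 + q) - (2 * ((k' + 1 : ℕ) : ℝ) + 1) * mu * ((q : ℝ) ^ 2 + 1) := by
    rw [hDdef] at hmain
    linear_combination hmain
  by_cases hz : 2 * B * ((q : ℝ) ^ 2 + q) - 2 * q * (2 * ((k' + 1 : ℕ) : ℝ) + 1) * mu = 0
  · rw [hz, mul_zero] at hlin
    have h1 : (2 * ((k' + 1 : ℕ) : ℝ) + 1) * mu * ((q : ℝ) - 1) ^ 2 = 0 := by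
      linear_combination hz + hlin
    have h2 : ((q : ℝ) - 1) ^ 2 ≠ 0 := by
      have : (q : ℝ) - 1 ≠ 0 := by linarith
      exact pow_ne_zero 2 this
    have h3 : (2 * ((k' + 1 : ℕ) : ℝ) + 1) * mu = 0 := (mul_eq_zero.mp h1).resolve_right h2
    have h4 : 2 * B * ((q : ℝ) ^ 2 + q) = 0 := by
      linear_combination hz + 2 * q * h3
    have : 0 < 2 * B * ((q : ℝ) ^ 2 + q) := by positivity
    linarith
  · have hCq : C = (((2 * (br q (2 * (k' + 1) + 1) : ℚ) * ((q : ℚ) ^ 2 + q)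
        - (2 * ((k' + 1 : ℕ) : ℚ) + 1) * mu * ((q : ℚ) ^ 2 + 1)) /
        (2 * (br q (2 * (k' + 1) + 1) : ℚ) * ((q : ℚ) ^ 2 + q)
          - 2 * q * (2 * ((k' + 1 : ℕ) : ℚ) + 1) * mu) : ℚ) : ℝ) := by
      push_cast
      rw [eq_div_iff]
      · rw [hB] at hlin
        push_cast at hlin
        exact hlin
      · rw [hB] at hz
        push_cast at hz
        exact hz
    have hirr : Irrational (cos (((2 / (2 * ((k' + 1 : ℕ) : ℚ) + 1) : ℚ) : ℝ) * π)) := by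
      apply irrational_cos_rat_mul_pi
      have hden : (2 / (2 * ((k' + 1 : ℕ) : ℚ) + 1) : ℚ).den = 2 * (k' + 1) + 1 := by
        have e : (2 / (2 * ((k' + 1 : ℕ) : ℚ) + 1) : ℚ) = ((2 : ℤ) : ℚ) / ((2 * (k' + 1) + 1 : ℤ) : ℚ) := by
          push_cast; ring
        rw [e]
        have h1 := Rat.den_div_eq_of_coprime (a := 2) (b := (2 * (k' + 1) + 1 : ℤ)) (by positivity)
          (by
            have : Nat.Coprime 2 (2 * (k' + 1) + 1) := by
              rw [Nat.coprime_two_left]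
              exact ⟨k' + 1, rfl⟩
            exact_mod_cast this)
        exact_mod_cast h1
      rw [hden]
      omega
    have harg : ((2 / (2 * ((k' + 1 : ℕ) : ℚ) + 1) : ℚ) : ℝ) * π = 2 * h := by
      rw [hh]; push_cast; ring
    rw [harg, ← hC, hCq] at hirr
    exact hirr ⟨_, rfl⟩

end GL4.SPEC2Proof

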